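import Pool.Agent.H203.GE.ALLM
import Pool.Agent.H203.GE.MZ

/-!
# Near-relations between zeros of Dirichlet L-functions: all moments (unconditional)

No hypothesis on the zeros is made: zeros are counted with multiplicity, wherever they lie in the strip.

Let `ℓ_1, ..., ℓ_k` be linear forms in `n` variables with rational coefficients, positive on `[1, 2]^n`, `τ_j` real numbers, `χ_j` primitive
Dirichlet characters, `f_j` test functions, and `h_j = h_j(T) → 0` scales with `h_j log T / (log log T)² → ∞`.  For ordinates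
`γ_1, ..., γ_n ∈ (T, 2T]` of zeros of given Dirichlet L-functions let `X_j(γ_1, ..., γ_n)` be the smooth number
`∑_γ f_j ((γ - ℓ_j(γ_1, ..., γ_n) - τ_j) / h_j)` of the zeros of `L(s, χ_j)` which nearly satisfy the linear relation
`γ = ℓ_j(γ_1, ..., γ_n) + τ_j`, minus the expected number `(h_j log T / 2π) ∫ f_j`.

1. Each relation holds nearly exactly as often as for random real numbers: the mean of `X_j` over the `n`-tuples of zeros tends
   to zero (the expected number itself tends to infinity, and the error is smaller than one near-relation per tuple).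
2. All mixed moments of the `X_j` over the `n`-tuples of zeros converge to those of a centred Gaussian vector, whose components
   `i` and `j` are uncorrelated unless the relations agree (`ℓ_i = ℓ_j`, `τ_i = τ_j`, `χ_i = χ_j`) and `h_i = h_j`.  Some of the `γ_i` may be
   replaced by random real numbers.
-/

open Complex Filter Topology Set MeasureTheory ProbabilityTheory
open scoped BoundedContinuousFunction

namespace Pool.Agent.Results.MP_0ec205_nt.NearRelations

/-- a primitive Dirichlet character; the character modulo `1` gives the zeta function -/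
structure PChar where
  q : ℕ
  ne : NeZero q
  χ : DirichletCharacter ℂ q
  prim : χ.IsPrimitive

/-- `L(s, χ)` -/
noncomputable def PChar.L (c : PChar) : ℂ → ℂ :=
  have := c.ne
  DirichletCharacter.LFunction c.χ

/-- the values of the character at the integers -/
noncomputable def PChar.val (c : PChar) (m : ℕ) : ℂ := c.χ (m : ZMod c.q)

/-- the nontrivial zeros -/
def zeros (L : ℂ → ℂ) : Set ℂ := {s : ℂ | L s = 0 ∧ 0 < s.re ∧ s.re < 1}

/-- the nontrivial zeros with ordinate in `(T, 2T]` -/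
def window (L : ℂ → ℂ) (T : ℝ) : Set ℂ := {s : ℂ | 0 < s.re ∧ s.re < 1 ∧ T < s.im ∧ s.im ≤ 2 * T ∧ L s = 0}

/-- multiplicity of a zero -/
noncomputable def mult (L : ℂ → ℂ) (s : ℂ) : ℕ := analyticOrderNatAt L s

/-- the data: characters, linear forms `ℓ_j`, shifts, test functions, scales -/
structure Family (k n : ℕ) where
  χ : Fin k → PChar
  ℓ : Fin k → Fin n → ℚ
  τ : Fin k → ℝ
  f : Fin k → ℝ → ℝ
  h : Fin k → ℝ → ℝ

/-- the hypotheses -/
structure Family.Good {k n : ℕ} (F : Family k n) : Prop where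
  pos : ∀ j, ∀ x : Fin n → ℝ, (∀ i, 1 ≤ x i ∧ x i ≤ 2) → 0 < ∑ i, (F.ℓ j i : ℝ) * x i
  smooth : ∀ j, ContDiff ℝ 3 (F.f j)
  compact : ∀ j, HasCompactSupport (F.f j)
  zero : ∀ j, Tendsto (F.h j) atTop (𝓝 0)
  big : ∀ j, Tendsto (fun T => F.h j T * Real.log T / Real.log (Real.log T) ^ 2) atTop atTop
  sep : ∀ i j, F.h i ≠ F.h j →
    Tendsto (fun T => F.h i T / F.h j T) atTop (𝓝 0) ∨ Tendsto (fun T => F.h j T / F.h i T) atTop (𝓝 0)

/-- the smooth number of the zeros of `L(s, χ_j)` near `ℓ_j(t) + τ_j`, i.e. of the near-solutions of `γ = ℓ_j(t) + τ_j` -/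
noncomputable def Family.count {k n : ℕ} (F : Family k n) (j : Fin k) (T : ℝ) (t : Fin n → ℝ) : ℝ :=
  ∑ᶠ s ∈ zeros (F.χ j).L, (mult (F.χ j).L s : ℝ) * F.f j ((s.im - ((∑ i, (F.ℓ j i : ℝ) * t i) + F.τ j)) / F.h j T)

/-- the expected number, for the mean density `log T / 2π` -/
noncomputable def Family.expected {k n : ℕ} (F : Family k n) (j : Fin k) (T : ℝ) : ℝ :=
  F.h j T * Real.log T / (2 * Real.pi) * ∫ x : ℝ, F.f j x

/-- the centred statistic -/
noncomputable def Family.X {k n : ℕ} (F : Family k n) (j : Fin k) (T : ℝ) (t : Fin n → ℝ) : ℝ :=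
  F.count j T t - F.expected j T

/-- the Fourier transform `∫ f(x) e^{-iξx} dx` -/
noncomputable def ft (f : ℝ → ℝ) (ξ : ℝ) : ℂ := ∫ x : ℝ, (f x : ℂ) * cexp (-(((ξ * x : ℝ) : ℂ) * I))

/-- the covariance predicted by the sine kernel -/
noncomputable def cov (f g : ℝ → ℝ) : ℝ :=
  1 / (2 * Real.pi ^ 2) * ∫ ξ in Ioi (0 : ℝ), ξ * (ft f ξ * (starRingEnd ℂ) (ft g ξ)).re

open Classical in
/-- the covariance matrix -/
noncomputable def Family.cov {k n : ℕ} (F : Family k n) : Matrix (Fin k) (Fin k) ℝ :=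
  Matrix.of fun i j => if F.ℓ i = F.ℓ j ∧ (∀ m : ℕ, (F.χ i).val m = (F.χ j).val m) ∧ F.τ i = F.τ j ∧ F.h i = F.h j then
    NearRelations.cov (F.f i) (F.f j) else 0

/-- the law of a parameter: uniform in `(T, 2T]`, or the ordinate of a random zero of `L(s, ψ)` with ordinate in `(T, 2T]` -/
noncomputable def law (o : Option PChar) (T : ℝ) : Measure ℝ :=
  match o with
  | none => (ENNReal.ofReal T)⁻¹ • volume.restrict (Ioc T (2 * T))
  | some ψ => ∑ᶠ ρ ∈ window ψ.L T, ENNReal.ofReal ((mult ψ.L ρ : ℝ) / (∑ᶠ ρ ∈ window ψ.L T, (mult ψ.L ρ : ℝ))) •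
      Measure.dirac ρ.im

/-- the Wick sum: the sum over the perfect matchings of `Fin k` of the products of the entries of `C` over the pairs.
Each matching is the image of `2 ^ (k/2) (k/2)!` bijections `Fin (k/2) × Fin 2 ≃ Fin k`; for odd `k` there is none.
For a covariance matrix this is the mean of the product of the components of the centred Gaussian vector. -/
noncomputable def wick {k : ℕ} (C : Fin k → Fin k → ℝ) : ℝ :=
  1 / (2 ^ (k / 2) * ((k / 2).factorial : ℝ)) * ∑ e : (Fin (k / 2) × Fin 2) ≃ Fin k, ∏ l, C (e (l, 0)) (e (l, 1))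

open Pool.Agent.H203.GE Pool.Agent.H203.GE.ENGL

/-- the internal form of the data -/
noncomputable def Family.dt {k n : ℕ} (F : Family k n) : Dt k n 1 where
  q := fun j => (F.χ j).q
  nz := fun j => (F.χ j).ne
  χ := fun j => (F.χ j).χ
  e := fun _ => 1
  A := fun j i _ => F.ℓ j i
  τ := F.τ
  f := F.f
  h := F.h
  E := fun _ => 1

lemma H_eq {k n : ℕ} (F : Family k n) (j : Fin k) (t : Fin n → ℝ) :
    F.dt.H j t = (∑ i, (F.ℓ j i : ℝ) * t i) + F.τ j := by
  unfold Dt.H HH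
  simp only [Fin.sum_univ_one]
  congr 1
  refine Finset.sum_congr rfl fun i _ => ?_
  show (F.ℓ j i : ℝ) * (t i) ^ (1 : ℝ) = _
  rw [Real.rpow_one]

lemma infty {k n : ℕ} {F : Family k n} (hF : F.Good) (j : Fin k) :
    Tendsto (fun T => F.h j T * Real.log T) atTop atTop := by
  refine tendsto_atTop_mono' atTop ?_ (hF.big j)
  filter_upwards [ENML.ll_pos, (hF.big j).eventually (eventually_ge_atTop 0)] with T h1 h2
  have h3 : 1 ≤ Real.log (Real.log T) ^ 2 := one_le_pow₀ h1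
  have h4 : 0 ≤ F.h j T * Real.log T := by
    by_contra h5
    push Not at h5
    exact absurd h2 (not_le.2 (div_neg_of_neg_of_pos h5 (by linarith)))
  exact div_le_self h4 h3

lemma ok {k n : ℕ} {F : Family k n} (hF : F.Good) : Ok F.dt where
  prim := fun j => (F.χ j).prim
  epos := fun _ => one_pos
  emono := fun i j h => by
    have : i = j := Subsingleton.elim i j
    rw [this] at h
    exact absurd h (lt_irrefl _)
  Epos := fun _ => one_pos
  cd := fun j => (hF.smooth j).of_le (by norm_num)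
  cs := hF.compact
  sc := ⟨hF.zero, infty hF, hF.sep⟩
  ht := common fun j => t_HTL n (F.ℓ j) (F.τ j) (hF.pos j)

lemma cM_eq {k n : ℕ} (F : Family k n) : F.dt.cM = F.cov := by
  ext i j
  unfold Dt.cM Family.cov
  simp only [Matrix.of_apply]
  have h1 : F.dt.A i = F.dt.A j ↔ F.ℓ i = F.ℓ j := by
    constructor
    · intro h
      funext l
      exact congrFun (congrFun h l) 0
    · intro h
      funext l _
      show F.ℓ i l = F.ℓ j l
      rw [h]
  have h2 : (F.dt.A i = F.dt.A j ∧ (∀ m : ℕ, F.dt.χ i m = F.dt.χ j m) ∧ F.dt.τ i = F.dt.τ j ∧ F.dt.h i = F.dt.h j) ↔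
      (F.ℓ i = F.ℓ j ∧ (∀ m : ℕ, (F.χ i).val m = (F.χ j).val m) ∧ F.τ i = F.τ j ∧ F.h i = F.h j) := by
    rw [h1]
    rfl
  by_cases hc : F.ℓ i = F.ℓ j ∧ (∀ m : ℕ, (F.χ i).val m = (F.χ j).val m) ∧ F.τ i = F.τ j ∧ F.h i = F.h j
  · rw [if_pos hc]
    exact if_pos (h2.2 hc)
  · rw [if_neg hc]
    exact if_neg (fun h => hc (h2.1 h))

lemma X_eq' {k n : ℕ} {F : Family k n} {T : ℝ} (hT : 0 < T) (hh : ∀ j, 0 < F.h j T) (j : Fin k) (t : Fin n → ℝ) :
    F.dt.X T j t = F.X j T t := by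
  unfold Family.X Family.count Family.expected
  rw [X_eq F.dt hT j (hh j) t, H_eq]
  show _ - F.h j T * (1 * Real.log T) / _ * _ = _
  rw [one_mul]
  rfl

lemma good_pos {k n : ℕ} {F : Family k n} (hF : F.Good) : ∀ᶠ T in atTop, ∀ j, 0 < F.h j T :=
  Pool.Agent.H203.ME.FINL.pos (ok hF).sc

lemma lf_of (ψ : PChar) : Lf ψ.L (fun m : ℕ => ψ.χ m) :=
  have := ψ.ne
  t_LFX ψ.q ψ.χ ψ.prim

lemma law_none (T : ℝ) : law none T = mT T := rfl

lemma law_some (ψ : PChar) {T : ℝ} (hT : 1 ≤ T) : law (some ψ) T = mZ ψ.L T := by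
  have hG := (lf_of ψ).good
  unfold law mZ
  simp only
  have h1 : (∑ᶠ ρ ∈ window ψ.L T, (mult ψ.L ρ : ℝ)) = (H370.NN ψ.L T (2 * T) : ℝ) := by
    rw [H370.NN_eq hG hT]
    push_cast
    exact H370.finsum_Zf hG hT (fun s => (H370.mult ψ.L s : ℝ))
  rw [h1]
  exact H370.finsum_Zf hG hT (fun s => ENNReal.ofReal ((H370.mult ψ.L s : ℝ) / (H370.NN ψ.L T (2 * T) : ℝ)) •
    Measure.dirac s.im)

lemma int_disc {n : ℕ} (ψ : Fin n → PChar) (T : ℝ) (g : (Fin n → ℝ) → ℝ) :
    Integrable g (Measure.pi (fun i => mZ (ψ i).L T)) := by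
  classical
  have e1 : (fun i => mZ (ψ i).L T) = fun i => ∑ z ∈ H370.Zf (ψ i).L T (2 * T),
      ENNReal.ofReal ((H370.mult (ψ i).L z : ℝ) / (H370.NN (ψ i).L T (2 * T) : ℝ)) • Measure.dirac z.im := rfl
  rw [e1, pi_disc _ _ (fun i z _ => ENNReal.ofReal_ne_top), integrable_finsetSum_measure]
  intro z _
  refine Integrable.smul_measure ?_ ?_
  · exact integrable_dirac (by finiteness)
  · exact ENNReal.prod_ne_top fun i _ => ENNReal.ofReal_ne_top

/-- the moments with internal names -/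
theorem main (hZ : S_MZ) {k n : ℕ} (F : Family k n) (hF : F.Good) (o : Fin n → Option PChar) :
    Tendsto (fun T : ℝ => ∫ t, ∏ j, F.X j T t ∂(Measure.pi fun i => law (o i) T)) atTop (𝓝 (wick fun i j => F.cov i j)) := by
  classical
  have hok := ok hF
  obtain ⟨c, hc⟩ : ∃ c : PChar, True := by
    refine ⟨⟨1, ⟨one_ne_zero⟩, 1, ?_⟩, trivial⟩
    exact DirichletCharacter.isPrimitive_one_level_one
  have hψ : ∀ i, Lf ((o i).getD c).L (fun m : ℕ => ((o i).getD c).χ m) := fun i => lf_of _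
  rw [← cM_eq]
  refine (ENML.momB p_BMI hZ F.dt hok hF.big hF.smooth (fun _ => le_rfl) (fun i => ((o i).getD c).L)
    (fun i m => ((o i).getD c).χ m) hψ (fun i T => match o i with | none => mT T | some ψ => mZ ψ.L T) (fun i T => ?_)).congr' ?_
  · cases h : o i with
    | none => left; rfl
    | some ψ => right; rfl
  · filter_upwards [good_pos hF, eventually_ge_atTop (1 : ℝ)] with T h1 h2
    have h3 : (fun i => law (o i) T) = fun i => (match o i with | none => mT T | some ψ => mZ ψ.L T) := by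
      funext i
      cases h : o i with
      | none => rfl
      | some ψ => exact law_some ψ h2
    rw [h3]
    congr 1
    funext t
    exact Finset.prod_congr rfl fun j _ => X_eq' (by linarith) h1 j t

theorem mainZ (hZ : S_MZ) {k n : ℕ} (F : Family k n) (hF : F.Good) (ψ : Fin n → PChar) :
    Tendsto (fun T : ℝ => (∑ᶠ ρ ∈ {ρ : Fin n → ℂ | ∀ i, ρ i ∈ window (ψ i).L T},
        (∏ i, (mult (ψ i).L (ρ i) : ℝ)) * ∏ j, F.X j T fun i => (ρ i).im) /
      (∑ᶠ ρ ∈ {ρ : Fin n → ℂ | ∀ i, ρ i ∈ window (ψ i).L T}, ∏ i, (mult (ψ i).L (ρ i) : ℝ))) atTop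
      (𝓝 (wick fun i j => F.cov i j)) := by
  refine (main hZ F hF (fun i => some (ψ i))).congr' ?_
  filter_upwards [eventually_ge_atTop (1 : ℝ)] with T h2
  have h3 : (fun i => law (some (ψ i)) T) = fun i => mZ (ψ i).L T := by
    funext i
    exact law_some (ψ i) h2
  rw [h3]
  exact int_pi_mZ (fun i => (lf_of (ψ i)).good) h2 (fun t => ∏ j, F.X j T t)

/-- the family of one relation -/
def Family.one {k n : ℕ} (F : Family k n) (j : Fin k) : Family 1 n where
  χ := fun _ => F.χ j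
  ℓ := fun _ => F.ℓ j
  τ := fun _ => F.τ j
  f := fun _ => F.f j
  h := fun _ => F.h j

lemma one_good {k n : ℕ} {F : Family k n} (hF : F.Good) (j : Fin k) : (F.one j).Good where
  pos := fun _ => hF.pos j
  smooth := fun _ => hF.smooth j
  compact := fun _ => hF.compact j
  zero := fun _ => hF.zero j
  big := fun _ => hF.big j
  sep := fun _ _ h => absurd rfl h

lemma wick_one (C : Fin 1 → Fin 1 → ℝ) : wick C = 0 := by
  unfold wick
  have : IsEmpty ((Fin (1 / 2) × Fin 2) ≃ Fin 1) := by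
    constructor
    intro e
    have := Fintype.card_congr e
    simp at this
  rw [Finset.univ_eq_empty, Finset.sum_empty, mul_zero]

theorem result_aux (hZ : S_MZ) {k n : ℕ} (F : Family k n) (hF : F.Good) :
    (∀ (ψ : Fin n → PChar) (j : Fin k),
      Tendsto (fun T : ℝ => (∑ᶠ ρ ∈ {ρ : Fin n → ℂ | ∀ i, ρ i ∈ window (ψ i).L T},
          (∏ i, (mult (ψ i).L (ρ i) : ℝ)) * F.count j T fun i => (ρ i).im) /
        (∑ᶠ ρ ∈ {ρ : Fin n → ℂ | ∀ i, ρ i ∈ window (ψ i).L T}, ∏ i, (mult (ψ i).L (ρ i) : ℝ)) -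
        F.expected j T) atTop (𝓝 0)) ∧
    (∀ ψ : Fin n → PChar,
      Tendsto (fun T : ℝ => (∑ᶠ ρ ∈ {ρ : Fin n → ℂ | ∀ i, ρ i ∈ window (ψ i).L T},
          (∏ i, (mult (ψ i).L (ρ i) : ℝ)) * ∏ j, F.X j T fun i => (ρ i).im) /
        (∑ᶠ ρ ∈ {ρ : Fin n → ℂ | ∀ i, ρ i ∈ window (ψ i).L T}, ∏ i, (mult (ψ i).L (ρ i) : ℝ))) atTop
        (𝓝 (wick fun i j => F.cov i j))) ∧
    (∀ o : Fin n → Option PChar,
      Tendsto (fun T : ℝ => ∫ t, ∏ j, F.X j T t ∂(Measure.pi fun i => law (o i) T)) atTop (𝓝 (wick fun i j => F.cov i j))) := by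
  refine ⟨fun ψ j => ?_, mainZ hZ F hF, main hZ F hF⟩
  have h1 := main hZ (F.one j) (one_good hF j) (fun i => some (ψ i))
  rw [wick_one] at h1
  refine h1.congr' ?_
  obtain ⟨T1, hT1, hp⟩ : ∃ T1 : ℝ, 1 ≤ T1 ∧ ∀ T : ℝ, T1 ≤ T → ∀ i, IsProbabilityMeasure (mZ (ψ i).L T) := by
    choose K T0 hK hT0 h using fun i => p_TRG (ψ i).L (fun m : ℕ => (ψ i).χ m) (lf_of (ψ i)) 1 one_pos
    refine ⟨1 + ∑ i, T0 i, ?_, fun T hT i => (h i T ?_).1⟩
    · have : 0 ≤ ∑ i, T0 i := Finset.sum_nonneg fun i _ => by linarith [hT0 i]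
      linarith
    · have : T0 i ≤ ∑ i, T0 i := Finset.single_le_sum (f := T0) (fun i _ => by linarith [hT0 i]) (Finset.mem_univ i)
      linarith
  filter_upwards [eventually_ge_atTop T1] with T h2
  have h2' : 1 ≤ T := hT1.trans h2
  have h3 : (fun i => law (some (ψ i)) T) = fun i => mZ (ψ i).L T := by
    funext i
    exact law_some (ψ i) h2'
  have := hp T h2
  rw [h3]
  have h4 := int_pi_mZ (fun i => (lf_of (ψ i)).good) h2' (fun t => F.count j T t)
  have h5 : (∑ᶠ ρ ∈ {ρ : Fin n → ℂ | ∀ i, ρ i ∈ window (ψ i).L T},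
          (∏ i, (mult (ψ i).L (ρ i) : ℝ)) * F.count j T fun i => (ρ i).im) /
        (∑ᶠ ρ ∈ {ρ : Fin n → ℂ | ∀ i, ρ i ∈ window (ψ i).L T}, ∏ i, (mult (ψ i).L (ρ i) : ℝ)) =
      ∫ t, F.count j T t ∂(Measure.pi (fun i => mZ (ψ i).L T)) := h4.symm
  have h6 : ∀ t, ∏ j', (F.one j).X j' T t = F.count j T t - F.expected j T := by
    intro t
    rw [Fin.prod_univ_one]
    rfl
  have h7 : ∫ t, ∏ j', (F.one j).X j' T t ∂(Measure.pi (fun i => mZ (ψ i).L T)) =
      (∑ᶠ ρ ∈ {ρ : Fin n → ℂ | ∀ i, ρ i ∈ window (ψ i).L T},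
          (∏ i, (mult (ψ i).L (ρ i) : ℝ)) * F.count j T fun i => (ρ i).im) /
        (∑ᶠ ρ ∈ {ρ : Fin n → ℂ | ∀ i, ρ i ∈ window (ψ i).L T}, ∏ i, (mult (ψ i).L (ρ i) : ℝ)) - F.expected j T := by
    rw [h5]
    simp_rw [h6]
    rw [integral_sub (int_disc ψ T _) (integrable_const _)]
    simp
  exact h7

/-- **Near-relations between zeros of Dirichlet L-functions: expected frequency, and all moments.** -/
theorem result {k n : ℕ} (F : Family k n) (hF : F.Good) :
    (∀ (ψ : Fin n → PChar) (j : Fin k),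
      Tendsto (fun T : ℝ => (∑ᶠ ρ ∈ {ρ : Fin n → ℂ | ∀ i, ρ i ∈ window (ψ i).L T},
          (∏ i, (mult (ψ i).L (ρ i) : ℝ)) * F.count j T fun i => (ρ i).im) /
        (∑ᶠ ρ ∈ {ρ : Fin n → ℂ | ∀ i, ρ i ∈ window (ψ i).L T}, ∏ i, (mult (ψ i).L (ρ i) : ℝ)) -
        F.expected j T) atTop (𝓝 0)) ∧
    (∀ ψ : Fin n → PChar,
      Tendsto (fun T : ℝ => (∑ᶠ ρ ∈ {ρ : Fin n → ℂ | ∀ i, ρ i ∈ window (ψ i).L T},
          (∏ i, (mult (ψ i).L (ρ i) : ℝ)) * ∏ j, F.X j T fun i => (ρ i).im) /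
        (∑ᶠ ρ ∈ {ρ : Fin n → ℂ | ∀ i, ρ i ∈ window (ψ i).L T}, ∏ i, (mult (ψ i).L (ρ i) : ℝ))) atTop
        (𝓝 (wick fun i j => F.cov i j))) ∧
    (∀ o : Fin n → Option PChar,
      Tendsto (fun T : ℝ => ∫ t, ∏ j, F.X j T t ∂(Measure.pi fun i => law (o i) T)) atTop (𝓝 (wick fun i j => F.cov i j))) :=
  result_aux (t_MZ p_BMI p_WIG t_CVR) F hF

end Pool.Agent.Results.MP_0ec205_nt.NearRelations
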