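import Pool.Agent.H862.EL.ZetaApp

/-!
# One exponential moment decides the Riemann Hypothesis and the linear independence of the ordinates

Let `E(x) = √x (∑_{n ≤ x} Λ(n) (1/n - 1/x) - log x + 1 + γ)`, that is `E(x) = √x ∫_x^∞ (t - ψ(t)) dt/t²`.
For every `κ > 0` the logarithmic means over `[1, X]` of `exp (κ E(x))` have a limit `L ∈ (0, ∞]` as `X → ∞`,
unconditionally. `L = ∞` if and only if the Riemann Hypothesis is false. If it is true, then
`L ≥ ∏_{γ ∈ Γ⁺} I₀(2 κ m_γ/(1/4 + γ²))`, with equality if and only if `Γ⁺` is linearly independent over `ℚ`.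
-/

set_option autoImplicit false

open MeasureTheory Filter Topology Set Complex

namespace Pool.Agent.Results.MP_0ec205_nt.OneExponentialMoment

/-- the error term `E(x) = √x (∑_{n ≤ x} Λ(n) (1/n - 1/x) - log x + 1 + γ)`, with Euler's constant `γ`
(by the prime number theorem it is `√x ∫_x^∞ (t - ψ(t)) dt/t²`) -/
noncomputable def error (x : ℝ) : ℝ :=
  √x * (∑ n ∈ Finset.Icc 1 ⌊x⌋₊, ArithmeticFunction.vonMangoldt n * (1 / n - 1 / x) - Real.log x + 1 +
    Real.eulerMascheroniConstant)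

/-- the mean of `exp (κ E(e^y))` over `0 ≤ y ≤ Y`, that is `(log X)⁻¹ ∫_1^X exp (κ E(x)) dx/x` for `X = e^Y` -/
noncomputable def mean (κ Y : ℝ) : ℝ := (1 / Y) * ∫ y in (0 : ℝ)..Y, Real.exp (κ * error (Real.exp y))

/-- the modified Bessel function `I₀(x) = ∫_0^1 exp (x cos 2πu) du` -/
noncomputable def I₀ (x : ℝ) : ℝ := ∫ u in (0 : ℝ)..1, Real.exp (x * Real.cos (2 * Real.pi * u))

/-- `Γ⁺`, the set of the positive ordinates on the critical line -/
def ordinates : Set ℝ := {t : ℝ | 0 < t ∧ riemannZeta (1 / 2 + t * I) = 0}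

/-- the multiplicity of the zero `1/2 + it` -/
noncomputable def mult (t : ℝ) : ℕ := (analyticOrderAt riemannZeta (1 / 2 + t * I)).toNat

/-- `Γ⁺` is linearly independent over `ℚ` -/
def Independent : Prop := LinearIndepOn ℚ id ordinates

/-- the zeros `1/2 + it`, `t > 0`, are simple -/
def Simple : Prop := ∀ t ∈ ordinates, mult t = 1

/-- `∏_{γ ∈ Γ⁺} I₀(2 κ m_γ/(1/4 + γ²))`, the value for independent phases of the distinct ordinates -/
noncomputable def product (κ : ℝ) : ℝ := ∏' t : ordinates, I₀ (2 * κ * (mult t / (1 / 4 + (t : ℝ) ^ 2)))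

/-- `∏_{γ ∈ Γ⁺} I₀(2 κ/(1/4 + γ²))^(m_γ)`, the value for independent phases of the ordinates repeated according
to multiplicity -/
noncomputable def productMult (κ : ℝ) : ℝ := ∏' t : ordinates, I₀ (2 * κ * (1 / (1 / 4 + (t : ℝ) ^ 2))) ^ mult t

/-! ### proofs -/

open Pool.Agent.H862.EL Pool.Agent.H862.EL.ZA
open Pool.Agent.N804.LI (EM)
open Pool.Agent.H862.VK (Yz Yz_zero)

theorem error_eq (y : ℝ) : error (Real.exp y) = Pz y := by
  unfold error Pz
  rw [Real.log_exp, show √(Real.exp y) = Real.exp (y / 2) by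
    rw [Real.sqrt_eq_rpow, ← Real.exp_mul]
    congr 1
    ring]

theorem mean_eq (κ : ℝ) : mean κ = EM Pz κ := by
  funext Y
  unfold mean EM
  simp only [error_eq]

/-- the exponents and the ordinates -/
theorem equiv_exists (h : RiemannHypothesis) : ∃ e : ordinates ≃ {k : ZF (fun _ : Unit => Yz) // 0 < (zz k).im},
    ∀ t : ordinates, zz (e t).1 = (t : ℝ) * I := by
  refine ⟨⟨fun t => ⟨⟨(), ⟨(t : ℝ) * I, Yz_eq_zero_iff.2 t.2.2⟩⟩, ?_⟩, fun k => ⟨(zz k.1).im, k.2, ?_⟩, ?_, ?_⟩, ?_⟩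
  · show 0 < (((t : ℝ) : ℂ) * I).im
    simpa using t.2.1
  · rw [← Yz_eq_zero_iff]
    have h1 : (((zz k.1).im : ℝ) : ℂ) * I = k.1.2 := by
      apply Complex.ext
      · have h2 := rh_iff.1 h k.1
        simp only [zz] at h2
        simp [h2]
      · simp
    rw [h1]
    exact k.1.2.2
  · intro t
    apply Subtype.ext
    show (((t : ℝ) : ℂ) * I).im = t
    simp
  · rintro ⟨⟨⟨⟩, ⟨b, hb⟩⟩, hk⟩
    apply Subtype.ext
    have h1 : (((b.im : ℝ) : ℂ) * I) = b := by
      apply Complex.ext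
      · have h2 := rh_iff.1 h ⟨(), ⟨b, hb⟩⟩
        have h3 : b.re = 0 := h2
        simp [h3]
      · simp
    show (⟨(), ⟨((b.im : ℝ) : ℂ) * I, _⟩⟩ : ZF (fun _ : Unit => Yz)) = ⟨(), ⟨b, hb⟩⟩
    congr 1
    exact Subtype.ext h1
  · intro t
    rfl

theorem mult_eq {t : ℝ} : mult t = analyticOrderNatAt Yz (t * I) := by
  have hre : (t * I : ℂ).re = 0 := by simp
  have h1 : (t * I : ℂ) ≠ 1 / 2 := by
    intro h
    have := congrArg Complex.re h
    rw [hre] at this
    norm_num at this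
  unfold mult analyticOrderNatAt
  rw [Yz_order (by rw [hre]; norm_num) h1]

theorem A0_it (t : ℝ) : (A0 (t * I)).re = 1 / (1 / 4 + t ^ 2) := by
  have e : A0 (t * I) = ((1 / (1 / 4 + t ^ 2) : ℝ) : ℂ) := by
    unfold A0
    rw [mul_pow, I_sq]
    push_cast
    ring
  rw [e, Complex.ofReal_re]

/-- the main theorem under RH -/
theorem on_line (h : RiemannHypothesis) {κ : ℝ} (hκ : 0 < κ) : (∃ L : ℝ, 0 < L ∧ Tendsto (mean κ) atTop (𝓝 L) ∧
    product κ ≤ L ∧ (L = product κ ↔ Independent) ∧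
    productMult κ ≤ L ∧ (L = productMult κ ↔ Independent ∧ Simple)) ∧
    (Multipliable fun t : ordinates => I₀ (2 * κ * (mult t / (1 / 4 + (t : ℝ) ^ 2)))) ∧
    Multipliable fun t : ordinates => I₀ (2 * κ * (1 / (1 / 4 + (t : ℝ) ^ 2))) ^ mult t := by
  obtain ⟨E, hE, h1, h2, h3, h4, h5, h8, h9⟩ := em_both (m := mz) (fam_sys fz) (fun k => rfl)
    (fun k => fz.co k.1 k.2) (rh_iff.1 h) hκ
  have hm0 : m0 (fun k : ZF (fun _ : Unit => Yz) => (k.2 : ℂ)) (fun k => od Yz k.2) A0 = 0 := m0_zero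
  rw [hm0, mul_zero, Real.exp_zero, one_mul] at h1
  obtain ⟨e, he⟩ := equiv_exists h
  have hmz : ∀ t : ordinates, mz (e t).1 = mult t := by
    intro t
    rw [mult_eq]
    have := he t
    unfold mz
    unfold zz at this
    rw [this]
  have hf1 : ∀ t : ordinates, Pool.Agent.N804.LI.I0 (2 * κ * ((fun k : ZF (fun _ : Unit => Yz) => od Yz k.2) (e t).1 *
      (A0 ((fun k : ZF (fun _ : Unit => Yz) => (k.2 : ℂ)) (e t).1)).re)) =
      I₀ (2 * κ * (mult t / (1 / 4 + (t : ℝ) ^ 2))) := by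
    intro t
    have h6 : ((e t).1.2 : ℂ) = (t : ℝ) * I := he t
    have h7 : od Yz (e t).1.2 = mult t := by
      unfold od
      exact_mod_cast hmz t
    beta_reduce
    rw [h6, A0_it]
    rw [h6] at h7
    rw [h7]
    show _ = I₀ _
    unfold I₀ Pool.Agent.N804.LI.I0
    rw [mul_one_div]
  have hp1 : PR (fun k : ZF (fun _ : Unit => Yz) => (k.2 : ℂ)) (fun k => od Yz k.2) A0 κ = product κ := by
    unfold PR product
    rw [← e.tprod_eq]
    exact tprod_congr hf1
  have hf2 : ∀ t : ordinates, Pool.Agent.N804.LI.I0 (2 * κ *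
      (A0 ((fun k : ZF (fun _ : Unit => Yz) => (k.2 : ℂ)) (e t).1)).re) ^ mz (e t).1 =
      I₀ (2 * κ * (1 / (1 / 4 + (t : ℝ) ^ 2))) ^ mult t := by
    intro t
    have h6 : ((e t).1.2 : ℂ) = (t : ℝ) * I := he t
    have h7 := hmz t
    beta_reduce
    rw [h7, h6, A0_it]
    rfl
  have hp2 : PM (fun k : ZF (fun _ : Unit => Yz) => (k.2 : ℂ)) mz A0 κ = productMult κ := by
    unfold PM productMult
    rw [← e.tprod_eq]
    exact tprod_congr hf2
  have hli : LinearIndependent ℚ (fun k : {k : ZF (fun _ : Unit => Yz) // 0 < ((k.2 : ℂ)).im} => ((k.1.2 : ℂ)).im) ↔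
      Independent := by
    unfold Independent LinearIndepOn
    rw [← linearIndependent_equiv e]
    have h6 : ((fun k : {k : ZF (fun _ : Unit => Yz) // 0 < ((k.2 : ℂ)).im} => ((k.1.2 : ℂ)).im) ∘ e) =
        fun t : ordinates => id (t : ℝ) := by
      funext t
      have h7 : ((e t).1.2 : ℂ) = (t : ℝ) * I := he t
      show ((e t).1.2 : ℂ).im = t
      rw [h7]
      simp
    rw [h6]
  have hsi : (∀ k : {k : ZF (fun _ : Unit => Yz) // 0 < ((k.2 : ℂ)).im}, mz k.1 = 1) ↔ Simple := by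
    unfold Simple
    constructor
    · intro h6 t ht
      rw [← hmz ⟨t, ht⟩]
      exact h6 _
    · intro h6 k
      obtain ⟨t, rfl⟩ := e.surjective k
      rw [hmz t]
      exact h6 t t.2
  rw [hp1] at h2
  rw [hp1, hli] at h3
  rw [hp2] at h4
  rw [hp2, hli, hsi, and_comm] at h5
  rw [← e.multipliable_iff] at h8 h9
  exact ⟨⟨E, hE, by rw [mean_eq]; exact h1, h2, h3, h4, h5⟩, h8.congr hf1, h9.congr hf2⟩

theorem off_line (h : ¬ RiemannHypothesis) {κ : ℝ} (hκ : 0 < κ) : Tendsto (mean κ) atTop atTop := by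
  rw [mean_eq]
  rcases em_dich (fam_sys fz) hκ with ⟨h1, -⟩ | ⟨-, h2⟩
  · exact absurd (rh_iff.2 h1) h
  · exact h2

/-- **Theorem.** Let `κ > 0`. (1) If RH is false, then the means of `exp (κ E)` tend to `+∞`. (2) If RH is true, then
both products converge and the means have a limit `L` with `L ≥ ∏ I₀(2 κ m_γ/(1/4 + γ²)) ` and `L ≥ ∏ I₀(2 κ/(1/4 + γ²))^(m_γ)`; equality holds in the
first if and only if `Γ⁺` is linearly independent, and in the second if and only if moreover the zeros are simple.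
(3), (4) RH holds and `Γ⁺` is linearly independent (and the zeros are simple) if and only if the LOWER limit of the
means does not exceed the first (second) product. (5) RH implies the linear independence of `Γ⁺` if and only if the
means either are unbounded along every sequence or have a lower limit which does not exceed the first product. -/
theorem result (κ : ℝ) (hκ : 0 < κ) :
    (¬ RiemannHypothesis → Tendsto (mean κ) atTop atTop) ∧
    (RiemannHypothesis → ∃ L : ℝ, 0 < L ∧ Tendsto (mean κ) atTop (𝓝 L) ∧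
      product κ ≤ L ∧ (L = product κ ↔ Independent) ∧
      productMult κ ≤ L ∧ (L = productMult κ ↔ Independent ∧ Simple)) ∧
    (RiemannHypothesis → (Multipliable fun t : ordinates => I₀ (2 * κ * (mult t / (1 / 4 + (t : ℝ) ^ 2)))) ∧
      Multipliable fun t : ordinates => I₀ (2 * κ * (1 / (1 / 4 + (t : ℝ) ^ 2))) ^ mult t) ∧
    (RiemannHypothesis ∧ Independent ↔ ∀ δ : ℝ, 0 < δ → ∃ᶠ Y in atTop, mean κ Y ≤ product κ + δ) ∧
    (RiemannHypothesis ∧ Independent ∧ Simple ↔
      ∀ δ : ℝ, 0 < δ → ∃ᶠ Y in atTop, mean κ Y ≤ productMult κ + δ) ∧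
    ((RiemannHypothesis → Independent) ↔ (Tendsto (mean κ) atTop atTop ∨
      ∀ δ : ℝ, 0 < δ → ∃ᶠ Y in atTop, mean κ Y ≤ product κ + δ)) := by
  have hfr : ∀ B : ℝ, (∃ᶠ Y in atTop, mean κ Y ≤ B) → RiemannHypothesis := by
    intro B hB
    by_contra h
    obtain ⟨Y, h1, h2⟩ := (hB.and_eventually ((off_line h hκ).eventually (eventually_gt_atTop B))).exists
    linarith
  have hle : ∀ {L B : ℝ}, Tendsto (mean κ) atTop (𝓝 L) →
      (∀ δ : ℝ, 0 < δ → ∃ᶠ Y in atTop, mean κ Y ≤ B + δ) → L ≤ B := by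
    intro L B hL hB
    by_contra hcon
    push Not at hcon
    obtain ⟨Y, h1, h2⟩ := ((hB ((L - B) / 2) (by linarith)).and_eventually
      (hL.eventually (lt_mem_nhds (show (L + B) / 2 < L by linarith)))).exists
    linarith
  have hev : ∀ {L B : ℝ}, Tendsto (mean κ) atTop (𝓝 L) → L = B →
      ∀ δ : ℝ, 0 < δ → ∃ᶠ Y in atTop, mean κ Y ≤ B + δ := by
    intro L B hL hB δ hδ
    exact ((hL.eventually (gt_mem_nhds (show L < B + δ by linarith))).mono fun Y hY => le_of_lt hY).frequently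
  have h3 : (RiemannHypothesis ∧ Independent ↔ ∀ δ : ℝ, 0 < δ → ∃ᶠ Y in atTop, mean κ Y ≤ product κ + δ) := by
    constructor
    · rintro ⟨h1, h2⟩
      obtain ⟨L, -, hL, -, h4, -, -⟩ := (on_line h1 hκ).1
      exact hev hL (h4.2 h2)
    · intro h
      have h1 := hfr _ (h 1 one_pos)
      obtain ⟨L, -, hL, h5, h4, -, -⟩ := (on_line h1 hκ).1
      exact ⟨h1, h4.1 (le_antisymm (hle hL h) h5)⟩
  refine ⟨fun h => off_line h hκ, fun h => (on_line h hκ).1, fun h => (on_line h hκ).2, h3, ?_, ?_⟩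
  · constructor
    · rintro ⟨h1, h2⟩
      obtain ⟨L, -, hL, -, -, -, h4⟩ := (on_line h1 hκ).1
      exact hev hL (h4.2 h2)
    · intro h
      have h1 := hfr _ (h 1 one_pos)
      obtain ⟨L, -, hL, -, -, h5, h4⟩ := (on_line h1 hκ).1
      exact ⟨h1, h4.1 (le_antisymm (hle hL h) h5)⟩
  · constructor
    · intro h
      by_cases hRH : RiemannHypothesis
      · exact Or.inr (h3.1 ⟨hRH, h hRH⟩)
      · exact Or.inl (off_line hRH hκ)
    · rintro (h | h) hRH
      · obtain ⟨L, -, hL, -⟩ := (on_line hRH hκ).1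
        exact absurd h (not_tendsto_atTop_of_tendsto_nhds hL)
      · exact (h3.2 h).2

end Pool.Agent.Results.MP_0ec205_nt.OneExponentialMoment
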