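import Pool.Agent.H362.QI.One

set_option autoImplicit false

/-! # A quantitative form of Ingham's theorem

Ingham (1942): if the positive ordinates of the zeros of zeta are linearly independent over the rational numbers, then `M(x)/√x` is
unbounded above and below. Here: if there is no relation between the ordinates up to `T` of the simplest kind (no difference of two sums
of distinct ordinates, at least two in all, is `0` or an ordinate), then `M(x) > (log T) ^ (5/4 - ε) √x` for arbitrarily large `x`, and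
`M(x) < - (log T) ^ (5/4 - ε) √x` for arbitrarily large `x`. -/

namespace Pool.Agent.Results.MP_0ec205_nt.QuantitativeIngham

open Filter Topology

/-- The Mertens function `M(x)`, the sum of the Möbius function over the integers `1 ≤ n ≤ x`. -/
noncomputable def M (x : ℝ) : ℝ := ∑ n ∈ Finset.Icc 1 ⌊x⌋₊, ((ArithmeticFunction.moebius n : ℤ) : ℝ)

/-- `ζ(1/2 + iγ) = 0` -/
def Ordinate (γ : ℝ) : Prop := riemannZeta (1 / 2 + γ * Complex.I) = 0

/-- No relation up to `T`: if `P` and `N` are disjoint finite sets of positive ordinates `≤ T`, at least two ordinates in all, then the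
difference of their sums is neither `0` nor an ordinate. -/
def NoRelation (T : ℝ) : Prop := ∀ P N : Finset ℝ, Disjoint P N → (∀ γ ∈ P ∪ N, 0 < γ ∧ γ ≤ T ∧ Ordinate γ) →
  2 ≤ (P ∪ N).card → ∑ γ ∈ P, γ - ∑ γ ∈ N, γ ≠ 0 ∧ ¬ Ordinate (∑ γ ∈ P, γ - ∑ γ ∈ N, γ)

/-- The positive ordinates of the zeros on the critical line are linearly independent over `ℚ`. -/
def Independent : Prop := LinearIndependent ℚ (fun γ : {γ : ℝ // 0 < γ ∧ Ordinate γ} => (γ : ℝ))

open Pool.Agent.H362.QI

lemma ord_iff (γ : ℝ) : Ordinate γ ↔ riemannZeta (zr γ) = 0 := by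
  have : zr γ = 1 / 2 + γ * Complex.I := by apply Complex.ext <;> simp [zr]
  unfold Ordinate
  rw [this]

lemma ord_neg {γ : ℝ} (h : Ordinate γ) : Ordinate (-γ) := by
  rw [ord_iff] at h ⊢
  exact (zr_neg (zr_NT.2 h)).1

lemma noRelation_iff (T : ℝ) : NoRelation T ↔ NR T := by
  unfold NoRelation NR
  simp only [ord_iff]

lemma ft_eq (v : ℝ) : Pool.Agent.TH223.AP.ft v = M (Real.exp v) / √(Real.exp v) := by
  have e1 : √(Real.exp v) = Real.exp (v / 2) := by
    rw [Real.sqrt_eq_iff_mul_self_eq (Real.exp_pos v).le (Real.exp_pos _).le, ← Real.exp_add]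
    ring_nf
  rw [e1, div_eq_mul_inv, ← Real.exp_neg]
  rfl

/-- a relation contradicts the linear independence -/
lemma independent (h : Independent) (T : ℝ) : NoRelation T := by
  classical
  intro P N hd hmem hcard
  -- the key: no relation with one further term
  have key : ∀ (D : ℝ) (s : ℚ), 0 < D → Ordinate D → ∑ γ ∈ P, γ - ∑ γ ∈ N, γ = s * D → False := by
    intro D s hD0 hD heq
    set K : Finset ℝ := insert D (P ∪ N) with hK
    have hp : ∀ γ ∈ K, 0 < γ ∧ Ordinate γ := by
      intro γ hγ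
      rw [hK, Finset.mem_insert] at hγ
      rcases hγ with rfl | hγ
      · exact ⟨hD0, hD⟩
      · exact ⟨(hmem γ hγ).1, (hmem γ hγ).2.2⟩
    set c : ℝ → ℚ := fun γ => (if γ ∈ P then 1 else 0) - (if γ ∈ N then 1 else 0) - (if γ = D then s else 0) with hc
    have h1 := (linearIndependent_iff'.1 h) (K.subtype fun γ => 0 < γ ∧ Ordinate γ) (fun γ => c γ) (by
      have e1 : ∑ γ ∈ K.subtype (fun γ => 0 < γ ∧ Ordinate γ), c (γ : ℝ) • (γ : ℝ) =
          ∑ γ ∈ K, (c γ : ℝ) * γ := by
        rw [← Finset.sum_subtype_of_mem (fun γ => (c γ : ℝ) * γ) hp]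
        exact Finset.sum_congr rfl fun γ _ => by rw [Rat.smul_def]
      rw [e1]
      have e2 : ∀ γ ∈ K, (c γ : ℝ) * γ = ((if γ ∈ P then γ else 0) - (if γ ∈ N then γ else 0)) -
          (if γ = D then s * γ else 0) := by
        intro γ _
        rw [hc]
        push_cast
        split_ifs <;> ring
      have hPK : K.filter (fun γ => γ ∈ P) = P := by
        ext x
        rw [Finset.mem_filter, hK, Finset.mem_insert, Finset.mem_union]
        tauto
      have hNK : K.filter (fun γ => γ ∈ N) = N := by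
        ext x
        rw [Finset.mem_filter, hK, Finset.mem_insert, Finset.mem_union]
        tauto
      rw [Finset.sum_congr rfl e2, Finset.sum_sub_distrib, Finset.sum_sub_distrib, ← Finset.sum_filter,
        ← Finset.sum_filter, hPK, hNK, Finset.sum_ite_eq' K D, if_pos (Finset.mem_insert_self _ _), heq]
      ring)
    -- some ordinate of `P ∪ N` is not `D`
    obtain ⟨γ, hγ, hne⟩ : ∃ γ ∈ P ∪ N, γ ≠ D := by
      by_contra hcon
      push Not at hcon
      have : P ∪ N ⊆ {D} := fun x hx => by rw [Finset.mem_singleton]; exact hcon x hx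
      have := Finset.card_le_card this
      rw [Finset.card_singleton] at this
      omega
    have hγK : γ ∈ K := Finset.mem_insert_of_mem hγ
    have h2 := h1 ⟨γ, hp γ hγK⟩ (by rw [Finset.mem_subtype]; exact hγK)
    rw [hc] at h2
    simp only [if_neg hne, sub_zero] at h2
    rw [Finset.mem_union] at hγ
    by_cases hP : γ ∈ P
    · have hN : γ ∉ N := Finset.disjoint_left.1 hd hP
      rw [if_pos hP, if_neg hN] at h2
      norm_num at h2
    · have hN : γ ∈ N := hγ.resolve_left hP
      rw [if_neg hP, if_pos hN] at h2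
      norm_num at h2
  have hne : ∑ γ ∈ P, γ - ∑ γ ∈ N, γ ≠ 0 := by
    intro h0
    obtain ⟨γ, hγ⟩ : (P ∪ N).Nonempty := Finset.card_pos.1 (by omega)
    exact key γ 0 (hmem γ hγ).1 (hmem γ hγ).2.2 (by rw [h0]; simp)
  refine ⟨hne, fun hD => ?_⟩
  rcases lt_or_gt_of_ne hne with h1 | h1
  · exact key (-(∑ γ ∈ P, γ - ∑ γ ∈ N, γ)) (-1) (by linarith) (ord_neg hD) (by push_cast; ring)
  · exact key (∑ γ ∈ P, γ - ∑ γ ∈ N, γ) 1 h1 hD (by push_cast; ring)

/-- **Theorem.** (The last part only explains the hypothesis: the linear independence of the ordinates excludes all relations.) -/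
theorem result :
    (∀ ε : ℝ, 0 < ε → ∃ T₀ : ℝ, ∀ T : ℝ, T₀ ≤ T → NoRelation T →
      (∃ᶠ x : ℝ in atTop, Real.log T ^ (5 / 4 - ε) * √x < M x) ∧
        ∃ᶠ x : ℝ in atTop, M x < -(Real.log T ^ (5 / 4 - ε) * √x)) ∧
    (Independent → ∀ T : ℝ, NoRelation T) := by
  refine ⟨fun ε hε => ?_, independent⟩
  obtain ⟨T₀, hT₀⟩ := eventually_atTop.1 (step1 hε)
  refine ⟨T₀, fun T hT hN => ?_⟩
  have hS := hT₀ T hT ((noRelation_iff T).1 hN)
  set B : ℝ := Real.log T ^ (5 / 4 - ε) with hB
  have hev : ∀ {p : ℝ → Prop}, (∀ᶠ x : ℝ in atTop, p x) → ∀ᶠ v : ℝ in atTop, p (Real.exp v) :=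
    fun h => Real.tendsto_exp_atTop.eventually h
  have hsq : ∀ v : ℝ, 0 < √(Real.exp v) := fun v => Real.sqrt_pos.2 (Real.exp_pos v)
  refine ⟨?_, ?_⟩
  · intro hcon
    refine hS 1 (Or.inl rfl) ?_
    filter_upwards [hev hcon] with v hv
    rw [not_lt] at hv
    rw [one_mul, ft_eq, div_le_iff₀ (hsq v)]
    exact hv
  · intro hcon
    refine hS (-1) (Or.inr rfl) ?_
    filter_upwards [hev hcon] with v hv
    rw [not_lt] at hv
    rw [ft_eq, neg_one_mul, ← neg_div, div_le_iff₀ (hsq v)]
    linarith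

end Pool.Agent.Results.MP_0ec205_nt.QuantitativeIngham
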