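import Pool.Agent.H293.EX.Asm2
import Pool.Graph.R_pool_sql_team_seeded_3997aac3.Q213.GM.Lap

set_option autoImplicit false

/-!
# The linear independence of the ordinates and lower limits of sums over primes

No hypothesis is assumed.  For `a > 0` let `F_a(x) = ∑_{n ≤ x} Λ(n) n^(-1/2) (n/x)^a log(x/n) - √x/(a+1/2)²` and
`W_a = (1/a) (ξ'/ξ)(1/2 + a)`.  The question (RH implies that `Γ⁺` is linearly independent) has the answer yes if and
only if `liminf F_a ≤ - W_a` for infinitely many `a > 0`.  The same for the Dirichlet L-functions modulo `q`.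
-/

namespace Pool.Agent.Results.MP_0ec205_nt.SharpLowerLimits

open Filter Topology Set
open DirichletCharacter (LFunction completedLFunction)

/-- the lower limit for `x → ∞`, a real number or `±∞` -/
noncomputable def low (G : ℝ → ℝ) : EReal := liminf (fun x : ℝ => (G x : EReal)) atTop

/-- linear independence of a set of real numbers over `ℚ` -/
def Independent (O : Set ℝ) : Prop := LinearIndependent ℚ (fun γ : O => (γ : ℝ))

/-- `∑_{γ ∈ S} n_γ γ = 0` for a finite subset `S` of `O` and integers `n_γ` -/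
def Relation (O : Set ℝ) (S : Finset ℝ) (n : ℝ → ℤ) : Prop := (∀ γ ∈ S, γ ∈ O) ∧ ∑ γ ∈ S, (n γ : ℝ) * γ = 0

/-- The criterion: `H` is a Riemann hypothesis, `O` the set of the positive ordinates, `G a` an error term and `W a` a
constant. -/
def Criterion (H : Prop) (O : Set ℝ) (G : ℝ → ℝ → ℝ) (W : ℝ → ℝ) : Prop :=
  -- the question
  ((H → Independent O) ↔ {a : ℝ | 0 < a ∧ low (G a) ≤ ((-W a : ℝ) : EReal)}.Infinite) ∧
  -- both hypotheses together
  List.TFAE [
    H ∧ Independent O,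
    ∀ a : ℝ, 0 < a → low (G a) = ((-W a : ℝ) : EReal),
    {a : ℝ | 0 < a ∧ low (G a) = ((-W a : ℝ) : EReal)}.Infinite] ∧
  -- one value of `a`
  (∀ a : ℝ, 0 < a → (¬ H → low (G a) = ⊥) ∧ (H → ((-W a : ℝ) : EReal) ≤ low (G a)) ∧
    (low (G a) = ((-W a : ℝ) : EReal) ↔ H ∧ ∀ (S : Finset ℝ) (n : ℝ → ℤ), Relation O S n →
      ∏ γ ∈ S, (((a : ℂ) + γ * Complex.I) / ((a : ℂ) - γ * Complex.I)) ^ (n γ) = 1)) ∧
  -- finitely many values of `a` exclude the short relations
  (H → ∀ A : Finset ℝ, (∀ a ∈ A, 0 < a ∧ low (G a) ≤ ((-W a : ℝ) : EReal)) →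
    ∀ (S : Finset ℝ) (n : ℝ → ℤ), Relation O S n → (∃ γ ∈ S, n γ ≠ 0) → 2 * (A.card : ℤ) + 3 ≤ ∑ γ ∈ S, |n γ|)

section zeta

/-- `F_a(x) = ∑_{n ≤ x} Λ(n) n^(-1/2) (n/x)^a log(x/n) - √x/(a+1/2)²` -/
noncomputable def F (a x : ℝ) : ℝ :=
  (∑ n ∈ Finset.Icc 1 ⌊x⌋₊, ArithmeticFunction.vonMangoldt n / Real.sqrt n * (n / x) ^ a * Real.log (x / n)) -
    Real.sqrt x / (a + 1 / 2) ^ 2

/-- Riemann's `ξ(s)` -/
noncomputable def xi (s : ℂ) : ℂ := (1 + s * (s - 1) * completedRiemannZeta₀ s) / 2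

/-- `W_a = (1/a) (ξ'/ξ)(1/2 + a)` -/
noncomputable def W (a : ℝ) : ℝ := (logDeriv xi (1 / 2 + a)).re / a

/-- the set `Γ⁺` of the question -/
def Ordinates : Set ℝ := {γ : ℝ | 0 < γ ∧ riemannZeta (1 / 2 + γ * Complex.I) = 0}

end zeta

section modulus

/-- `F_a(x, q) = φ(q) ∑_{n ≤ x, n ≡ 1 (q)} Λ(n) n^(-1/2) (n/x)^a log(x/n) - √x/(a+1/2)²` -/
noncomputable def Fq (q : ℕ) (a x : ℝ) : ℝ :=
  (q.totient : ℝ) * (∑ n ∈ (Finset.Icc 1 ⌊x⌋₊).filter (fun n => n ≡ 1 [MOD q]),
    ArithmeticFunction.vonMangoldt n / Real.sqrt n * (n / x) ^ a * Real.log (x / n)) - Real.sqrt x / (a + 1 / 2) ^ 2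

open Classical in
/-- the completed L-function of the primitive character which induces `χ`; Riemann's `ξ` for the principal character -/
noncomputable def xiL {q : ℕ} [NeZero q] (χ : DirichletCharacter ℂ q) (s : ℂ) : ℂ :=
  haveI : NeZero χ.conductor := ⟨χ.conductor_ne_zero⟩
  if χ = 1 then xi s
  else (χ.conductor : ℂ) ^ (s / 2) * completedLFunction χ.primitiveCharacter s

/-- `W_a(q) = (1/a) ∑_χ (ξ'/ξ)(1/2 + a, χ)` -/
noncomputable def Wq (q : ℕ) [NeZero q] (a : ℝ) : ℝ :=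
  (∑ χ : DirichletCharacter ℂ q, logDeriv (xiL χ) (1 / 2 + a)).re / a

/-- the Riemann hypothesis for the L-functions modulo `q` -/
def GRH (q : ℕ) [NeZero q] : Prop :=
  ∀ χ : DirichletCharacter ℂ q, ∀ s : ℂ, 0 < s.re → s.re < 1 → LFunction χ s = 0 → s.re = 1 / 2

/-- the positive ordinates of the zeros of the L-functions modulo `q` on the critical line -/
def OrdinatesL (q : ℕ) [NeZero q] : Set ℝ :=
  {γ : ℝ | 0 < γ ∧ ∃ χ : DirichletCharacter ℂ q, LFunction χ (1 / 2 + γ * Complex.I) = 0}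

end modulus

section aux

open Pool.Agent.Q253.LQ Pool.Agent.H293.EX

lemma Fq_eq (q : ℕ) (a u : ℝ) : Fq q a (Real.exp u) = FF q a u := by
  unfold Fq FF
  rw [← Real.exp_half]
  congr 2
  rw [tsum_eq_sum (s := Finset.Icc 1 ⌊Real.exp u⌋₊), Finset.sum_filter]
  · refine Finset.sum_congr rfl fun n hn => ?_
    rw [Finset.mem_Icc] at hn
    have hn0 : (0 : ℝ) < n := by exact_mod_cast hn.1
    have hx : (n : ℝ) ≤ Real.exp u := (Nat.le_floor_iff (Real.exp_pos u).le).1 hn.2
    have hl : Real.log n ≤ u := by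
      rw [← Real.log_exp u]
      exact Real.log_le_log hn0 hx
    have h1 : (n ≡ 1 [MOD q]) ↔ n % q = 1 % q := Iff.rfl
    refine if_congr h1 ?_ rfl
    have e1 : Real.log (Real.exp u / n) = u - Real.log n := by
      rw [Real.log_div (Real.exp_pos u).ne' hn0.ne', Real.log_exp]
    have e2 : ((n : ℝ) / Real.exp u) ^ a = Real.exp (-(a * (u - Real.log n))) := by
      rw [Real.rpow_def_of_pos (by positivity), Real.log_div hn0.ne' (Real.exp_pos u).ne', Real.log_exp]
      congr 1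
      ring
    have e3 : Real.exp (-(Real.log n / 2)) = 1 / Real.sqrt n := by
      rw [Real.exp_neg, Real.exp_half, Real.exp_log hn0]
      ring
    rw [e1, e2, e3, max_eq_left (by linarith)]
    ring
  · intro n hn
    rcases Nat.eq_zero_or_pos n with h0 | h0
    · subst h0
      simp
    · have hn0 : (0 : ℝ) < n := by exact_mod_cast h0
      have h1 : ¬ n ≤ ⌊Real.exp u⌋₊ := fun h => hn (Finset.mem_Icc.2 ⟨h0, h⟩)
      have h2 : Real.exp u < n := by
        by_contra h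
        exact h1 (Nat.le_floor (not_lt.1 h))
      have h3 : u - Real.log n ≤ 0 := by
        have : u ≤ Real.log n := by
          rw [← Real.log_exp u]
          exact Real.log_le_log (Real.exp_pos u) h2.le
        linarith
      rw [max_eq_right h3]
      simp

lemma low_eq (q : ℕ) (a : ℝ) : low (Fq q a) = LL q a := by
  unfold low LL
  have h : (fun u : ℝ => (FF q a u : EReal)) = (fun x : ℝ => (Fq q a x : EReal)) ∘ Real.exp := by
    funext u
    rw [Function.comp_apply, Fq_eq]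
  rw [h, Filter.liminf_comp, Real.map_exp_atTop]

variable {q : ℕ} [NeZero q]

lemma grh_iff : GRH q ↔ ∀ χ : DirichletCharacter ℂ q, GRHc χ := by
  constructor
  · intro h χ s h1 h2 h0
    have := h χ s (by linarith) h2 h0
    linarith
  · intro h χ s h1 h2 h0
    exact Pool.Agent.Q253.CP.strip_line (h χ) h1 h2 h0

lemma Wq_eq (a : ℝ) : Wq q a = WW q a := rfl

lemma Ord_eq : OrdinatesL q = Od q := rfl

theorem crit (q : ℕ) [NeZero q] : Criterion (GRH q) (OrdinatesL q) (Fq q) (Wq q) := by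
  have hpos : ∀ γ ∈ OrdinatesL q, 0 < γ := fun γ hγ => hγ.1
  have hbot : ∀ a : ℝ, 0 < a → ¬ GRH q → low (Fq q a) = ⊥ := by
    intro a ha hn
    by_contra h
    rw [low_eq] at h
    exact hn (grh_iff.2 (grh_of_LL ha h))
  have hle : ∀ a : ℝ, 0 < a → GRH q → (low (Fq q a) ≤ ((-Wq q a : ℝ) : EReal) ↔ Cn (OrdinatesL q) a) := by
    intro a ha hG
    rw [low_eq]
    exact LL_le_of (grh_iff.1 hG) ha
  have heq : ∀ a : ℝ, 0 < a → (low (Fq q a) = ((-Wq q a : ℝ) : EReal) ↔ GRH q ∧ Cn (OrdinatesL q) a) := by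
    intro a ha
    rw [low_eq, grh_iff]
    exact LL_eq_iff ha
  have hinf : {a : ℝ | 0 < a}.Infinite := Set.Ioi_infinite (0 : ℝ)
  refine ⟨⟨fun h => ?_, fun h hG => ?_⟩, ?_, fun a ha => ⟨hbot a ha, fun hG => ?_, heq a ha⟩, ?_⟩
  · refine hinf.mono fun a ha => ⟨ha, ?_⟩
    by_cases hG : GRH q
    · exact ((heq a ha).2 ⟨hG, li_cn (h hG) a⟩).le
    · rw [hbot a ha hG]
      exact bot_le
  · exact li_of_inf hpos (h.mono fun a ha => ⟨ha.1, (hle a ha.1 hG).1 ha.2⟩)
  · tfae_have 1 → 2 := fun h a ha => (heq a ha).2 ⟨h.1, li_cn h.2 a⟩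
    tfae_have 2 → 3 := fun h => hinf.mono fun a ha => ⟨ha, h a ha⟩
    tfae_have 3 → 1 := by
      intro h
      obtain ⟨a, ha, ha2⟩ := h.nonempty
      refine ⟨((heq a ha).1 ha2).1, ?_⟩
      exact li_of_inf hpos (h.mono fun b hb => ⟨hb.1, ((heq b hb.1).1 hb.2).2⟩)
    tfae_finish
  · rw [low_eq]
    exact LL_ge (grh_iff.1 hG) ha
  · intro hG A hA S n hR hn
    exact len_of hpos (fun a ha => ⟨(hA a ha).1, (hle a (hA a ha).1 hG).1 (hA a ha).2⟩) hR hn

lemma rh_iff : RiemannHypothesis ↔ GRH 1 := by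
  rw [grh_iff]
  constructor
  · intro h χ s h1 h2 h0
    rw [DirichletCharacter.LFunction_modOne_eq] at h0
    have h3 := h s h0 (by
      rintro ⟨n, rfl⟩
      have : ((-2 : ℂ) * ((n : ℂ) + 1)).re = -2 * ((n : ℝ) + 1) := by simp
      rw [this] at h1
      have h4 : (0 : ℝ) ≤ n := Nat.cast_nonneg n
      linarith) (by
      rintro rfl
      simp at h2)
    linarith
  · intro h
    refine Pool.Agent.Q213.GM.RH_of fun s hs h0 => ?_
    rcases le_or_gt 1 s.re with h1 | h1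
    · exact riemannZeta_ne_zero_of_one_le_re h1 h0
    · refine h 1 s hs h1 ?_
      rw [DirichletCharacter.LFunction_modOne_eq]
      exact h0

lemma F_one (a x : ℝ) : Fq 1 a x = F a x := by
  unfold Fq F
  rw [Nat.totient_one, Nat.cast_one, one_mul]
  congr 1
  rw [Finset.filter_true_of_mem]
  intro n _
  exact Nat.modEq_one

lemma W_one (a : ℝ) : Wq 1 a = W a := by
  unfold Wq W
  congr 2
  rw [Fintype.sum_eq_single (1 : DirichletCharacter ℂ 1) fun χ h => absurd (DirichletCharacter.level_one χ) h]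
  congr 1
  funext s
  unfold xiL
  rw [if_pos rfl]

lemma Ord_one : OrdinatesL 1 = Ordinates := by
  ext γ
  unfold OrdinatesL Ordinates
  simp only [Set.mem_ofPred_eq, DirichletCharacter.LFunction_modOne_eq, exists_const]

end aux

/-- **Theorem.** -/
theorem result : Criterion RiemannHypothesis Ordinates F W ∧
    ∀ (q : ℕ) [NeZero q], Criterion (GRH q) (OrdinatesL q) (Fq q) (Wq q) := by
  refine ⟨?_, fun q _ => crit q⟩
  have h := crit 1
  have e1 : Fq 1 = F := by
    funext a x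
    exact F_one a x
  have e2 : Wq 1 = W := by
    funext a
    exact W_one a
  rw [e1, e2, Ord_one, ← rh_iff] at h
  exact h

end Pool.Agent.Results.MP_0ec205_nt.SharpLowerLimits
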